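import Pool.Agent.MWHQ.Stmts

/-!
# Block MWHQ, row LT5: normal vectors are light of degree two, or all their entries are heavy
-/

namespace Pool.Agent.MWHQ.H19

open Pool.Agent.Helper14_MV Pool.Agent.Helper2_MV Pool.Agent.MVO Pool.Agent.MWL Pool.Agent.MWS
  Pool.Agent.MWH Pool.Agent.MWHQ

/-- a vector with the entries `0`, `1` of degree two -/
theorem ll2_of {k : ℕ} {a : ℕ → ℕ} (hall : ∀ p ≤ k, a p ≤ 1) (hdeg : deg k a = 2) :
    ∃ u v, LL2 k a u v := by
  classical
  let s : Finset ℕ := (Finset.range (k + 1)).filter (fun p => a p = 1)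
  have hcard : s.card = 2 := by
    rw [← hdeg]
    unfold deg
    rw [Finset.card_filter]
    apply Finset.sum_congr rfl
    intro p hp
    have hp' : p ≤ k := by
      rw [Finset.mem_range] at hp
      omega
    have h1 := hall p hp'
    by_cases h : a p = 1
    · rw [if_pos h, h]
    · rw [if_neg h]
      omega
  have hs : ∀ p, p ∈ s ↔ p ≤ k ∧ a p = 1 := by
    intro p
    show p ∈ (Finset.range (k + 1)).filter (fun p => a p = 1) ↔ _
    rw [Finset.mem_filter, Finset.mem_range, Nat.lt_succ_iff]
  obtain ⟨x, y, hxy, hS⟩ := Finset.card_eq_two.1 hcard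
  have key : ∀ u v, u < v → s = {u, v} → LL2 k a u v := by
    intro u v huv hS
    have hu := (hs u).1 (by rw [hS]; simp)
    have hv := (hs v).1 (by rw [hS]; simp)
    refine ⟨huv, hv.1, hu.2, hv.2, ?_⟩
    intro j hj hju hjv
    have h1 := hall j hj
    by_contra hne
    have hm := (hs j).2 ⟨hj, by omega⟩
    rw [hS, Finset.mem_insert, Finset.mem_singleton] at hm
    rcases hm with h | h
    · exact hju h
    · exact hjv h
  rcases lt_or_gt_of_ne hxy with h | h
  · exact ⟨x, y, key x y h hS⟩
  · exact ⟨y, x, key y x h (by rw [hS, Finset.pair_comm])⟩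

theorem lt5 (h1 : HvpStmt) (h2 : ArrStmt) (h3 : Ta1Stmt) (h4 : Ta2Stmt) : Lt5Stmt := by
  intro n R hR hJ hD k a hN hdeg
  by_cases hLL : ∃ u v, LL2 k a u v
  · exact Or.inl hLL
  · right
    intro j hj haj
    by_contra hcon
    have haj1 : a j = 1 := by omega
    have hnotAb : ¬ Ab n R k a j := fun h => hcon (hN j hj haj h)
    have hDl : ∀ l, Has n R (Bit.D l) := by
      intro l
      induction l with
      | zero => exact hD
      | succ l ih => exact (h2 n R hR).2.2.2.1 l ih
    have hJq : ∀ q, 3 ≤ q → Has n R (Bit.J q) := by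
      intro q hq
      induction q, hq using Nat.le_induction with
      | base => exact hJ
      | succ q hq ih => exact ((h2 n R hR).2.2.2.2.1 q (by omega) ih).1
    have hlow : ∀ p ≤ j, a p ≤ 1 := by
      intro p hp
      by_contra hc
      exact hnotAb ((h1 n R hR k a j hj).1 ⟨haj, p, hp, by omega⟩)
    by_cases hq : ∃ q, j < q ∧ q ≤ k ∧ 2 ≤ a q
    · exact hnotAb (((h3 n R hR k a j hj).2.2.2 haj1 hlow hq).2 (hDl _))
    · have hall : ∀ p ≤ k, a p ≤ 1 := by
        intro p hp
        by_contra hc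
        by_cases hpj : p ≤ j
        · exact hc (hlow p hpj)
        · exact hq ⟨p, by omega, hp, by omega⟩
      have hdeg3 : 3 ≤ deg k a := by
        by_contra hc
        exact hLL (ll2_of hall (by omega))
      exact hnotAb (((h4 n R hR k a j hj hall hdeg).1 haj1).2 ⟨hJq _ hdeg3, hDl _⟩)

end Pool.Agent.MWHQ.H19
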